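import Pool.Agent.Q99.SML8.Congr

/-!
# Pure braids at the fourth roots of unity
-/

set_option autoImplicit false

open Finset LaurentPolynomial Pool.Agent.H891R2.Jones Pool.Agent.W639.RB Polynomial

namespace Q99.SML9

open Q99.SML Q99.SML2 Q99.SML3 Q99.SML6 Q99.SML8

/-- the exponent sum of the valid letters -/
def ex (m : ℕ) : Word → ℤ
  | [] => 0
  | (x :: w) => (if x.2 + 1 < m then sgb x.1 else 0) + ex m w

theorem ex_cons_pos {m : ℕ} (x : Bool × ℕ) (w : Word) (h : x.2 + 1 < m) :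
    ex m (x :: w) = sgb x.1 + ex m w := by rw [ex, if_pos h]

theorem ex_cons_neg {m : ℕ} (x : Bool × ℕ) (w : Word) (h : ¬ x.2 + 1 < m) :
    ex m (x :: w) = ex m w := by rw [ex, if_neg h, zero_add]

theorem rep_prod {G : Type*} [Group G] (l : List ℕ) (s : ℕ → G) (P : ℕ) :
    (((List.replicate P l).flatten).map s).prod = (l.map s).prod ^ P := by
  induction P with
  | zero => simp
  | succ P ih =>
    rw [List.replicate_succ, List.flatten_cons, List.map_append, List.prod_append, ih, pow_succ']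

theorem cox_pow {G : Type*} [Group G] {m : ℕ} (s : ℕ → G) (hs : Cox (m - 1) s) (w : Word) (P : ℕ)
    (h : wperm m w ^ P = 1) : ((idx m w).map s).prod ^ P = 1 := by
  have h1 := cox_main (m - 1) _ hs ((List.replicate P (idx m w)).flatten)
    (by
      intro i hi
      rw [List.mem_flatten] at hi
      obtain ⟨l, hl, hi⟩ := hi
      rw [List.mem_replicate] at hl
      rw [hl.2] at hi
      exact idx_lt m w i hi) (by rw [rep_prod, ← wperm_idx, h])
  rwa [rep_prod] at h1

section

variable {K V : Type*} [Field K] [AddCommGroup V] [Module K V] {m : ℕ}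

theorem sU_one : (sU (1 : Kˣ) : (Module.End K V)ˣ) = 1 := by
  apply Units.ext
  show ((1 : Kˣ) : K) • (1 : Module.End K V) = 1
  rw [Units.val_one, one_smul]

theorem sU_inv (c : Kˣ) : (sU c : (Module.End K V)ˣ)⁻¹ = sU c⁻¹ := by
  rw [inv_eq_iff_mul_eq_one, sU_mul, mul_inv_cancel, sU_one]

/-- the action of powers of words with pure power, at a fourth root of unity -/
theorem abstract_pow (a : Kˣ) (ha : a ^ 4 = 1) (e : ℕ → Module.End K V)
    (hTL : IsTL m (dd a) e) (L : Bool × ℕ → (Module.End K V)ˣ)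
    (hL : ∀ x : Bool × ℕ, x.2 + 1 < m → (L x).1 =
      ((a ^ (sgb x.1) : Kˣ) : K) • 1 + ((a ^ (- sgb x.1) : Kˣ) : K) • e x.2)
    (hL' : ∀ x : Bool × ℕ, ¬ x.2 + 1 < m → L x = 1) (W : Word → (Module.End K V)ˣ)
    (h0 : W [] = 1) (h1 : ∀ x w, W (x :: w) = W w * L x) (w : Word) (P : ℕ)
    (hP : wperm m w ^ P = 1) : W w ^ P = sU (a ^ (ex m w * P)) := by
  have hA : (a : K) ≠ 0 := a.ne_zero
  have hd : dd a = -(a : K) ^ 2 - (a : K)⁻¹ ^ 2 := by
    unfold dd
    congr 1
    rw [zpow_neg, Units.val_inv_eq_inv_val, inv_pow]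
    norm_cast
  have ha2 : ((a : K) ^ 2) * (a : K) ^ 2 = 1 := by
    rw [← pow_add]
    have := congrArg Units.val ha
    rw [Units.val_pow_eq_pow_val, Units.val_one] at this
    exact this
  have hinv2 : (a : K)⁻¹ ^ 2 = (a : K) ^ 2 := by
    rw [inv_pow]
    exact inv_eq_of_mul_eq_one_right ha2
  have hLt : ∀ i, i + 1 < m → (L (true, i)).1 = sg (a : K) e i := by
    intro i hi
    rw [hL (true, i) hi]
    unfold sg
    congr 2
    · simp [sgb]
    · simp [sgb]
  have hLsg : ∀ x : Bool × ℕ, x.2 + 1 < m →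
      L x = sU (a ^ (sgb x.1)) * (sU a⁻¹ * L (true, x.2)) := by
    intro x hx
    apply Units.ext
    have e1 : (sU (a ^ (sgb x.1)) * (sU a⁻¹ * L (true, x.2)) : (Module.End K V)ˣ).1 =
        ((a ^ (sgb x.1) : Kˣ) : K) • (((a⁻¹ : Kˣ) : K) • (L (true, x.2)).1) := by
      show (((a ^ (sgb x.1) : Kˣ) : K) • (1 : Module.End K V)) *
        ((((a⁻¹ : Kˣ) : K) • (1 : Module.End K V)) * (L (true, x.2)).1) = _
      rw [smul_mul_assoc, one_mul, smul_mul_assoc, one_mul]
    rw [e1, hLt _ hx, hL x hx]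
    unfold sg
    rw [smul_add, smul_add, smul_smul, smul_smul, smul_smul, smul_smul]
    rcases x with ⟨b, i⟩
    cases b
    · simp only [sgb, Bool.false_eq_true, if_false]
      congr 2
      · simp [hA]
      · have h3 : ((a ^ (-(-1 : ℤ)) : Kˣ) : K) = (a : K) := by simp
        have h4 : ((a ^ (-1 : ℤ) : Kˣ) : K) = (a : K)⁻¹ := by simp
        rw [h3, h4, Units.val_inv_eq_inv_val]
        have h5 : (a : K)⁻¹ * (a : K)⁻¹ * (a : K)⁻¹ = (a : K)⁻¹ * ((a : K)⁻¹ ^ 2) := by ring
        rw [h5, hinv2]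
        field_simp
    · simp only [sgb, if_true]
      congr 2
      · simp [hA]
      · simp [hA]
  have hsq : ∀ i, i + 1 < m → (sU a⁻¹ * L (true, i)) * (sU a⁻¹ * L (true, i)) = 1 := by
    intro i hi
    have h2 : L (false, i) * L (true, i) = 1 := by
      apply Units.ext
      show (L (false, i)).1 * (L (true, i)).1 = 1
      rw [hLt i hi, hL (false, i) hi]
      have h3 : ((a ^ (sgb false) : Kˣ) : K) • (1 : Module.End K V) +
          ((a ^ (- sgb false) : Kˣ) : K) • e i = sg (a : K)⁻¹ e i := by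
        unfold sg
        rw [inv_inv]
        congr 2
        · simp [sgb]
        · simp [sgb]
      rw [h3]
      exact sg_inv' hA hd hTL i hi
    have h3 := hLsg (false, i) hi
    rw [h3] at h2
    have h4 : (sU (a ^ (sgb false)) : (Module.End K V)ˣ) = sU a⁻¹ := by
      congr 1
      simp [sgb]
    simp only [h4] at h2
    calc (sU a⁻¹ * L (true, i)) * (sU a⁻¹ * L (true, i)) =
        sU a⁻¹ * (L (true, i) * sU a⁻¹) * L (true, i) := by group
      _ = sU a⁻¹ * (sU a⁻¹ * L (true, i)) * L (true, i) := by rw [(sU_comm a⁻¹ (L (true, i))).eq]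
      _ = 1 := h2
  have hcox : Cox (m - 1) (fun i => (sU a⁻¹ : (Module.End K V)ˣ) * L (true, i)) := by
    refine ⟨fun i hi => hsq i (by omega), fun i hi => ?_, fun i j hj hij => ?_⟩
    · have h3 : ∀ x y z : (Module.End K V)ˣ, (sU a⁻¹ * x) * (sU a⁻¹ * y) * (sU a⁻¹ * z) =
          (sU a⁻¹ * sU a⁻¹ * sU a⁻¹) * (x * y * z) := by
        intro x y z
        have c1 := sU_comm a⁻¹ x
        have c2 := sU_comm a⁻¹ (x * y)
        calc (sU a⁻¹ * x) * (sU a⁻¹ * y) * (sU a⁻¹ * z) =
            sU a⁻¹ * (x * sU a⁻¹) * y * (sU a⁻¹ * z) := by group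
          _ = sU a⁻¹ * (sU a⁻¹ * x) * y * (sU a⁻¹ * z) := by rw [c1.eq]
          _ = sU a⁻¹ * sU a⁻¹ * ((x * y) * sU a⁻¹) * z := by group
          _ = sU a⁻¹ * sU a⁻¹ * (sU a⁻¹ * (x * y)) * z := by rw [c2.eq]
          _ = _ := by group
      show (sU a⁻¹ * L (true, i)) * (sU a⁻¹ * L (true, i + 1)) * (sU a⁻¹ * L (true, i)) =
        (sU a⁻¹ * L (true, i + 1)) * (sU a⁻¹ * L (true, i)) * (sU a⁻¹ * L (true, i + 1))
      rw [h3, h3]
      congr 1
      apply Units.ext
      show (L (true, i)).1 * (L (true, i + 1)).1 * (L (true, i)).1 =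
        (L (true, i + 1)).1 * (L (true, i)).1 * (L (true, i + 1)).1
      rw [hLt i (by omega), hLt (i + 1) (by omega)]
      exact braid hA hd hTL i (by omega)
    · have h3 : ∀ x y : (Module.End K V)ˣ, (sU a⁻¹ * x) * (sU a⁻¹ * y) =
          (sU a⁻¹ * sU a⁻¹) * (x * y) := by
        intro x y
        have c1 := sU_comm a⁻¹ x
        calc (sU a⁻¹ * x) * (sU a⁻¹ * y) = sU a⁻¹ * (x * sU a⁻¹) * y := by group
          _ = sU a⁻¹ * (sU a⁻¹ * x) * y := by rw [c1.eq]
          _ = _ := by group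
      rw [h3, h3]
      congr 1
      apply Units.ext
      show (L (true, i)).1 * (L (true, j)).1 = (L (true, j)).1 * (L (true, i)).1
      rw [hLt i (by omega), hLt j (by omega)]
      exact far_ss hTL i j (by omega) hij
  have hW : ∀ w : Word, (W w)⁻¹ = sU (a ^ (-(ex m w))) *
      ((idx m w).map (fun i => (sU a⁻¹ : (Module.End K V)ˣ) * L (true, i))).prod := by
    intro w
    induction w with
    | nil => rw [h0, inv_one]; simp [ex, idx, sU_one]
    | cons x w ih =>
      rw [h1, mul_inv_rev, ih]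
      by_cases h : x.2 + 1 < m
      · rw [idx_cons_pos x w h, ex_cons_pos x w h, List.map_cons, List.prod_cons]
        have h2 : (L x)⁻¹ = sU (a ^ (-(sgb x.1))) * (sU a⁻¹ * L (true, x.2)) := by
          rw [hLsg x h, mul_inv_rev, sU_inv, ← zpow_neg]
          have h3 : ((sU a⁻¹ : (Module.End K V)ˣ) * L (true, x.2))⁻¹ = sU a⁻¹ * L (true, x.2) :=
            inv_eq_of_mul_eq_one_left (hsq x.2 h)
          rw [h3]
          exact (sU_comm _ _).eq.symm
        rw [h2, neg_add, zpow_add, ← sU_mul]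
        have c1 := sU_comm (a ^ (-(ex m w))) ((sU a⁻¹ : (Module.End K V)ˣ) * L (true, x.2))
        have gen : ∀ A B C X : (Module.End K V)ˣ, Commute C B → A * B * (C * X) = A * C * (B * X) := by
          intro A B C X hc
          calc A * B * (C * X) = A * (B * C) * X := by group
            _ = A * (C * B) * X := by rw [hc.eq]
            _ = _ := by group
        exact gen _ _ _ _ c1
      · rw [idx_cons_neg x w h, ex_cons_neg x w h, hL' x h, inv_one, one_mul]
  have h2 := cox_pow _ hcox w P hP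
  have h3 : ((W w)⁻¹) ^ P = sU (a ^ (-(ex m w) * P)) := by
    rw [hW w, (sU_comm _ _).mul_pow, h2, mul_one, ← zpow_natCast, sU_zpow, ← zpow_mul]
  rw [inv_pow, inv_eq_iff_eq_inv] at h3
  rw [h3, sU_inv, ← zpow_neg]
  congr 2
  ring

end

end Q99.SML9
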