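import Pool.Agent.Q99.SML9.Four

/-!
# Lines near the fourth roots of unity
-/

set_option autoImplicit false

open Finset LaurentPolynomial Pool.Agent.H891R2.Jones Pool.Agent.W639.RB Polynomial

namespace Q99.SML9

open Q99.SML Q99.SML2 Q99.SML3 Q99.SML6 Q99.SML8

variable {m : ℕ}

/-! ### the writhe modulo 4 -/

/-- the sum of the positions of the strands running upwards -/
def pot (U : Fin m → Bool) : ℤ := ∑ x : Fin m, if U x then (x : ℤ) else 0

theorem pot_swp (U : Fin m → Bool) (i : ℕ) (h : i + 1 < m) :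
    pot (U ∘ swp i h) = pot U + (if U ⟨i, Nat.lt_of_succ_lt h⟩ then 1 else 0) -
      (if U ⟨i + 1, h⟩ then 1 else 0) := by
  classical
  have h1 : pot (U ∘ swp i h) = ∑ y : Fin m, if U y then ((swp i h y : Fin m) : ℤ) else 0 := by
    unfold pot
    rw [← Equiv.sum_comp (swp i h)]
    refine Finset.sum_congr rfl fun x _ => ?_
    have h2 : swp i h (swp i h x) = x := by simp [swp]
    rw [Function.comp_apply, h2]
  have h2 : ∀ y : Fin m, (if U y then ((swp i h y : Fin m) : ℤ) else 0) =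
      (if U y then (y : ℤ) else 0) +
        (if y = ⟨i, Nat.lt_of_succ_lt h⟩ then
          (if U ⟨i, Nat.lt_of_succ_lt h⟩ then (1 : ℤ) else 0) else 0) +
        (if y = ⟨i + 1, h⟩ then (-(if U ⟨i + 1, h⟩ then (1 : ℤ) else 0)) else 0) := by
    intro y
    by_cases h3 : y = ⟨i, Nat.lt_of_succ_lt h⟩
    · subst h3
      have h4 : swp i h ⟨i, Nat.lt_of_succ_lt h⟩ = ⟨i + 1, h⟩ := by simp [swp]
      have h5 : (⟨i, Nat.lt_of_succ_lt h⟩ : Fin m) ≠ ⟨i + 1, h⟩ := by simp
      rw [h4, if_pos rfl, if_neg h5]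
      split_ifs <;> push_cast <;> ring
    · by_cases h6 : y = ⟨i + 1, h⟩
      · subst h6
        have h4 : swp i h ⟨i + 1, h⟩ = ⟨i, Nat.lt_of_succ_lt h⟩ := by simp [swp]
        rw [h4, if_neg h3, if_pos rfl]
        split_ifs <;> push_cast <;> ring
      · have h4 : swp i h y = y := Equiv.swap_apply_of_ne_of_ne h3 h6
        rw [h4, if_neg h3, if_neg h6, add_zero, add_zero]
  rw [h1, Finset.sum_congr rfl fun y _ => h2 y, Finset.sum_add_distrib, Finset.sum_add_distrib,
    Finset.sum_ite_eq', Finset.sum_ite_eq', if_pos (Finset.mem_univ _), if_pos (Finset.mem_univ _)]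
  unfold pot
  ring

theorem pf_four (x : Bool × ℕ) (s : St m) (h : x.2 + 1 < m) :
    (4 : ℤ) ∣ (pf m x s).2 - s.2 - sgb x.1 - 2 * (pot (pf m x s).1 - pot s.1) := by
  rw [pf_pos x s h]
  dsimp only
  rw [pot_swp]
  unfold Q99.SML2.cst pat
  rw [dif_pos (Nat.lt_of_succ_lt h), dif_pos h]
  rcases x with ⟨b, i⟩
  cases b <;> simp only [sgb] <;> split_ifs <;> norm_num

theorem QU_four (w : Word) : ∀ s : St m,
    (4 : ℤ) ∣ (QU m w s).2 - s.2 - ex m w - 2 * (pot (QU m w s).1 - pot s.1) := by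
  induction w with
  | nil => intro s; simp [QU, ex]
  | cons x w ih =>
    intro s
    show (4 : ℤ) ∣ (QU m w (pf m x s)).2 - s.2 - ex m (x :: w) -
      2 * (pot (QU m w (pf m x s)).1 - pot s.1)
    have h2 := ih (pf m x s)
    by_cases h : x.2 + 1 < m
    · rw [ex_cons_pos x w h]
      have h3 := pf_four x s h
      have h4 := dvd_add h2 h3
      have e : (QU m w (pf m x s)).2 - s.2 - (sgb x.1 + ex m w) -
          2 * (pot (QU m w (pf m x s)).1 - pot s.1) =
          (QU m w (pf m x s)).2 - (pf m x s).2 - ex m w -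
            2 * (pot (QU m w (pf m x s)).1 - pot (pf m x s).1) +
          ((pf m x s).2 - s.2 - sgb x.1 - 2 * (pot (pf m x s).1 - pot s.1)) := by ring
      rw [e]
      exact h4
    · rw [ex_cons_neg x w h]
      rwa [pf_neg x s h] at h2 ⊢

theorem QU_pow_four (w : Word) (k : ℕ) (s : St m) :
    (4 : ℤ) ∣ ((QU m w ^ k) s).2 - s.2 - ex m w * k - 2 * (pot ((QU m w ^ k) s).1 - pot s.1) := by
  induction k with
  | zero => simp
  | succ k ih =>
    rw [pow_succ', Equiv.Perm.mul_apply]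
    have h1 := QU_four w ((QU m w ^ k) s)
    have h2 := dvd_add h1 ih
    have e : (QU m w ((QU m w ^ k) s)).2 - s.2 - ex m w * ((k + 1 : ℕ) : ℤ) -
        2 * (pot (QU m w ((QU m w ^ k) s)).1 - pot s.1) =
      (QU m w ((QU m w ^ k) s)).2 - ((QU m w ^ k) s).2 - ex m w -
        2 * (pot (QU m w ((QU m w ^ k) s)).1 - pot ((QU m w ^ k) s).1) +
      (((QU m w ^ k) s).2 - s.2 - ex m w * k - 2 * (pot ((QU m w ^ k) s).1 - pot s.1)) := by
      push_cast; ring
    rw [e]
    exact h2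

/-- the writhe of a pure power modulo 4 -/
theorem QU_trans' (w : Word) (P : ℕ) (hP : wperm m w ^ P = 1) (s : St m) :
    ∃ e : ℤ, (4 : ℤ) ∣ e - ex m w * P ∧ ∀ t : ℤ, ((QU m w ^ P) ^ t) s = (s.1, s.2 + t * e) := by
  obtain ⟨e, -, h⟩ := QU_trans w P hP s
  refine ⟨e, ?_, h⟩
  have h1 := h 1
  rw [zpow_one, one_mul] at h1
  have h2 := QU_pow_four w P s
  rw [h1] at h2
  have h3 : s.2 + e - s.2 - ex m w * P - 2 * (pot s.1 - pot s.1) = e - ex m w * P := by ring
  rwa [h3] at h2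

theorem ex_parity (w : Word) : Even (ex m w - (idx m w).length) := by
  induction w with
  | nil => simp [ex, idx]
  | cons x w ih =>
    by_cases h : x.2 + 1 < m
    · rw [ex_cons_pos x w h, idx_cons_pos x w h, List.length_cons]
      have h1 : Even (sgb x.1 - 1) := by
        unfold sgb
        split_ifs <;> decide
      have h2 := ih.add h1
      have e : sgb x.1 + ex m w - (((idx m w).length + 1 : ℕ) : ℤ) =
        ex m w - (idx m w).length + (sgb x.1 - 1) := by push_cast; ring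
      rw [e]
      exact h2
    · rw [ex_cons_neg x w h, idx_cons_neg x w h]
      exact ih

theorem ex_even (w : Word) (P : ℕ) (hP : wperm m w ^ P = 1) : Even (ex m w * P) := by
  have h1 := cox_pow (G := ℤˣ) (m := m) (fun _ => -1)
    ⟨fun _ _ => by simp, fun _ _ => rfl, fun _ _ _ _ => rfl⟩ w P hP
  rw [List.map_const', List.prod_replicate, ← pow_mul] at h1
  have h2 : Even ((idx m w).length * P) := by
    by_contra h
    rw [Nat.not_even_iff_odd] at h
    rw [h.neg_one_pow] at h1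
    exact absurd h1 (by decide)
  obtain ⟨t, ht⟩ := ex_parity (m := m) w
  obtain ⟨r, hr⟩ := h2
  have hr' : ((idx m w).length : ℤ) * P = r + r := by exact_mod_cast hr
  refine ⟨t * P + r, ?_⟩
  linear_combination P * ht + hr'

theorem unit_four {F : Type*} [CommRing F] (z : Fˣ) (hz : z ^ 4 = 1) (e E : ℤ)
    (he : (4 : ℤ) ∣ e - E) (hE : Even E) : eta z ^ e * z ^ E = 1 := by
  have h1 : eta z = -z := by
    unfold Q99.SML2.eta
    congr 1
    have : z⁻¹ ^ 3 = z⁻¹ ^ 4 * z := by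
      rw [pow_succ z⁻¹ 3, mul_assoc, inv_mul_cancel, mul_one]
    rw [this, inv_pow, hz, inv_one, one_mul]
  obtain ⟨t, ht⟩ := he
  obtain ⟨s, hs⟩ := hE
  have e1 : e = (s + s) + 4 * t := by rw [← hs]; linear_combination ht
  have h4 : (-z) ^ (4 : ℤ) = 1 := by
    have : (-z) ^ (4 : ℤ) = (-z) ^ 4 := by norm_cast
    rw [this, Even.neg_pow (by decide), hz]
  rw [h1, e1, hs, zpow_add, zpow_mul, h4, one_zpow, mul_one, zpow_add, zpow_add]
  have h5 : (-z) ^ s * (-z) ^ s * (z ^ s * z ^ s) = ((-z) * (-z) * (z * z)) ^ s := by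
    rw [mul_zpow, mul_zpow, mul_zpow]
  rw [h5]
  have h6 : (-z) * (-z) * (z * z) = 1 := by
    rw [neg_mul_neg, ← hz, pow_succ, pow_succ, pow_succ, pow_one]
    group
  rw [h6, one_zpow]

/-! ### operators of a line -/

variable {K : Type*} [CommRing K]

/-- the formula along a line, with the writhe modulo 4 -/
theorem value' (hm : 0 < m) (a : Kˣ) (O : Outer m) (w : Word)
    (x : VWord) (P : ℕ) (hP : wperm m w ^ P = 1) (s : ℤ) :
    ∃ (e : ℤ) (l : (Mt m → K) →ₗ[K] K) (v : Mt m → K),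
      (4 : ℤ) ∣ e - ex m w * P ∧ ∀ t : ℤ,
        spec a (drawG (power O w (s + P * t)) x).close.fPoly =
          l (((sU (Q99.SML2.eta a ^ e) * WUm a w ^ P) ^ t : (Module.End K (Mt m → K))ˣ).1 v) := by
  obtain ⟨e, he, h1⟩ := QU_trans' w P hP ((QU m w ^ s) (stt O))
  set s1 := (QU m w ^ s) (stt O) with hs1
  refine ⟨e, ((Q99.SML2.eta a ^ (QG m x s1).2 : Kˣ) : K) •
    (LinearMap.proj (Q99.SML.strt m) ∘ₗ XU a x),
    (WUm a w ^ s : (Module.End K (Mt m → K))ˣ).1 (gm a O), he, fun t => ?_⟩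
  rw [spec_fPoly, close_writhe, close_bracket hm]
  have h2 : owr (drawG (power O w (s + P * t)) x) = (QG m x s1).2 + t * e := by
    have h3 : (stt (drawG (power O w (s + P * t)) x)).2 = (QG m x s1).2 + t * e := by
      rw [stt_drawG, stt_power, add_comm s, zpow_add, zpow_mul, zpow_natCast,
        Equiv.Perm.mul_apply, ← hs1, h1 t, QG_shift]
    exact h3
  have h4 : spec a (fill (drawG (power O w (s + P * t)) x) (strt m)).bracket =
      XU a x (((WUm a w ^ P) ^ t :
        (Module.End K (Mt m → K))ˣ).1 ((WUm a w ^ s : (Module.End K (Mt m → K))ˣ).1 (gm a O)))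
          (strt m) := by
    have h5 : spec a (fill (drawG (power O w (s + P * t)) x) (strt m)).bracket =
      gm a (drawG (power O w (s + P * t)) x) (strt m) := rfl
    rw [h5, gm_drawG hm, gm_power hm, add_comm s, zpow_add, zpow_mul, zpow_natCast, Units.val_mul]
    rfl
  have h6 : ((sU (Q99.SML2.eta a ^ e) * WUm a w ^ P) ^ t : (Module.End K (Mt m → K))ˣ) =
      sU (Q99.SML2.eta a ^ (t * e)) * (WUm a w ^ P) ^ t := by
    rw [(Q99.SML2.sU_comm _ _).mul_zpow, Q99.SML2.sU_zpow, ← zpow_mul, mul_comm e t]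
  rw [h2, h4, h6, Units.val_mul, Module.End.mul_apply, sU_apply, LinearMap.smul_apply,
    LinearMap.comp_apply, map_smul, map_smul, smul_eq_mul, smul_eq_mul, ← mul_assoc, zpow_add,
    Units.val_mul]
  rfl

theorem WUm_four {F : Type*} [Field F] (a : Fˣ) (ha : a ^ 4 = 1) (w : Word) (P : ℕ)
    (hP : wperm m w ^ P = 1) : (WUm (m := m) a w) ^ P = sU (a ^ (ex m w * P)) :=
  abstract_pow a ha (eM m F (dd a)) (eM_TL (dd a)) (fun x => LUm a x)
    (fun x hx => by
      show Lm a x.1 x.2 = _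
      rw [Lm_pos a x.1 x.2 hx, eM_pos _ _ hx])
    (fun x hx => by
      apply Units.ext
      show Lm (m := m) a x.1 x.2 = 1
      unfold Lm
      rw [dif_neg hx]) (fun w => WUm a w) rfl (fun _ _ => rfl) w P hP

theorem WU_four {F : Type*} [Field F] (a : Fˣ) (ha : a ^ 4 = 1) (w : Word) (P : ℕ)
    (hP : wperm m w ^ P = 1) : (Q99.SML2.WU (m := m) a w) ^ P = sU (a ^ (ex m w * P)) :=
  abstract_pow a ha (eN m F (dd a)) (eN_TL (dd a)) (fun x => Q99.SML2.LU a x)
    (fun x hx => by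
      show Q99.SML2.Lf a x.1 x.2 = _
      rw [Q99.SML2.Lf_pos a x.1 x.2 hx, eN_pos _ _ hx])
    (fun x hx => by
      apply Units.ext
      show Q99.SML2.Lf (m := m) a x.1 x.2 = 1
      unfold Q99.SML2.Lf
      rw [dif_neg hx]) (fun w => Q99.SML2.WU a w) rfl (fun _ _ => rfl) w P hP

section

variable [IsDomain K] {F : Type*} [Field F]

theorem ann_four (φ : K →+* F) (x : K) (hx : x ≠ 0) (hφ : ∀ y, φ y = 0 → x ∣ y)
    (a : Kˣ) (ha : (Units.map (φ : K →* F) a) ^ 4 = 1) (hd : dd a ≠ 0)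
    (w : Word) (P : ℕ) (hP : wperm m w ^ P = 1) (e : ℤ) (he : (4 : ℤ) ∣ e - ex m w * P) :
    ∃ (B : Module.End K (Mt m → K)) (R : K[X]),
      (sU (Q99.SML2.eta a ^ e) * WUm a w ^ P : (Module.End K (Mt m → K))ˣ).1 = 1 + x • B ∧
        R.Monic ∧ R.natDegree ≤ m.choose (m / 2) ∧ aeval B R = 0 := by
  have hE := ex_even (m := m) w P hP
  have hu := unit_four (Units.map (φ : K →* F) a) ha e (ex m w * P) he hE
  have hval : φ ((Q99.SML2.eta a ^ e : Kˣ) : K) *
      (((Units.map (φ : K →* F) a) ^ (ex m w * P) : Fˣ) : F) = 1 := by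
    have h1 := congrArg Units.val hu
    rw [Units.val_mul, Units.val_one] at h1
    rw [← h1]
    congr 1
    have h2 : Units.map (φ : K →* F) (Q99.SML2.eta a ^ e) =
        Q99.SML2.eta (Units.map (φ : K →* F) a) ^ e := by
      rw [map_zpow, eta_map]
    exact congrArg Units.val h2
  obtain ⟨B, hB⟩ := trivial_of φ x hx hφ
    (sU (Q99.SML2.eta a ^ e) * WUm a w ^ P : (Module.End K (Mt m → K))ˣ).1 (by
    intro v f
    have h2 := congrFun (WUm_pow_map (m := m) φ a w P v) f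
    rw [WUm_four _ ha w P hP, sU_apply, Pi.smul_apply, smul_eq_mul] at h2
    have h3 : (sU (Q99.SML2.eta a ^ e) * WUm a w ^ P : (Module.End K (Mt m → K))ˣ).1 v f =
      ((Q99.SML2.eta a ^ e : Kˣ) : K) * (WUm a w ^ P : (Module.End K (Mt m → K))ˣ).1 v f := rfl
    rw [map_sub, h3, map_mul, h2, ← mul_assoc, hval, one_mul, sub_self])
  obtain ⟨B', hB'⟩ := trivial_of φ x hx hφ
    (sU (Q99.SML2.eta a ^ e) * Q99.SML2.WU a w ^ P : (Module.End K (NX m → K))ˣ).1 (by
    intro v f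
    have h2 := congrFun (WU_pow_map (m := m) φ a w P v) f
    rw [WU_four _ ha w P hP, sU_apply, Pi.smul_apply, smul_eq_mul] at h2
    have h3 : (sU (Q99.SML2.eta a ^ e) * Q99.SML2.WU a w ^ P :
        (Module.End K (NX m → K))ˣ).1 v f =
      ((Q99.SML2.eta a ^ e : Kˣ) : K) *
        (Q99.SML2.WU a w ^ P : (Module.End K (NX m → K))ˣ).1 v f := rfl
    rw [map_sub, h3, map_mul, h2, ← mul_assoc, hval, one_mul, sub_self])
  have hcell : Cellular (sU (Q99.SML2.eta a ^ e) * Q99.SML2.WU a w ^ P :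
      (Module.End K (NX m → K))ˣ).1 := by
    show Cellular ((sU (Q99.SML2.eta a ^ e) : (Module.End K (NX m → K))ˣ).1 *
      (Q99.SML2.WU a w ^ P : (Module.End K (NX m → K))ˣ).1)
    rw [Units.val_pow_eq_pow_val]
    exact (Cellular.one.smul _).mul ((WU_cellular a w).pow P)
  obtain ⟨R, h1, h2, h3⟩ := (hcell.div x hx hB').ann
  refine ⟨B, R, hB, h1, h2, ?_⟩
  have hPP : PP (m := m) (dd a) (sU (Q99.SML2.eta a ^ e) * WUm a w ^ P :
      (Module.End K (Mt m → K))ˣ).1 (sU (Q99.SML2.eta a ^ e) * Q99.SML2.WU a w ^ P :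
      (Module.End K (NX m → K))ˣ).1 := by
    show PP (dd a) ((sU (Q99.SML2.eta a ^ e) : (Module.End K (Mt m → K))ˣ).1 *
      (WUm a w ^ P : (Module.End K (Mt m → K))ˣ).1)
      ((sU (Q99.SML2.eta a ^ e) : (Module.End K (NX m → K))ˣ).1 *
      (Q99.SML2.WU a w ^ P : (Module.End K (NX m → K))ˣ).1)
    rw [Units.val_pow_eq_pow_val, Units.val_pow_eq_pow_val]
    exact ((PP.one _).smul _).mul ((WU_PP a w).pow P)
  have h9 := (hPP.div x hx hB hB').poly R
  rw [h3] at h9
  exact PP.zero' _ hd h9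

theorem member_four {k : ℕ} (hm : 0 < m) (φ : K →+* F) (x : K) (hx : x ≠ 0)
    (hφ : ∀ y, φ y = 0 → x ∣ y)
    (a : Kˣ) (ha : (Units.map (φ : K →* F) a) ^ 4 = 1) (hd : dd a ≠ 0) (O : Outer m)
    (w : Fin k → Word) (u : Fin k → VWord) (P : ℕ) (hP : ∀ j, wperm m (w j) ^ P = 1)
    (s : Fin k → ℤ) (q : Fin k → ℤ) (j : Fin k) : IRecD x (m.choose (m / 2))
      (fun y : ℤ => spec a
        (familyV O w u (s + (P : ℤ) • Function.update q j y)).close.fPoly) := by
  have hupd : ∀ y : ℤ, s + (P : ℤ) • Function.update q j y =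
      Function.update (s + (P : ℤ) • q) j (s j + P * y) := by
    intro y
    funext l
    by_cases hl : l = j
    · subst hl
      rw [Pi.add_apply, Pi.smul_apply, Function.update_self, Function.update_self, smul_eq_mul]
    · rw [Pi.add_apply, Pi.smul_apply, Function.update_of_ne hl, Function.update_of_ne hl,
        Pi.add_apply, Pi.smul_apply]
  obtain ⟨O', y, hy⟩ := familyV_update m k w u (s + (P : ℤ) • q) j O
  obtain ⟨e, l, v, he, hval⟩ := value' hm a O' (w j) y P (hP j) (s j)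
  obtain ⟨B, R, hB, h1, h2, h3⟩ := ann_four φ x hx hφ a ha hd (w j) P (hP j) e he
  refine ⟨R, h1, h2, ?_⟩
  have h4 := IRec.of_end _ B hB R h3 l v
  have h5 : (fun y : ℤ => spec a
      (familyV O w u (s + (P : ℤ) • Function.update q j y)).close.fPoly) =
      fun t : ℤ => l (((sU (Q99.SML2.eta a ^ e) * WUm a (w j) ^ P) ^ t :
        (Module.End K (Mt m → K))ˣ).1 v) := by
    funext t
    rw [hupd, hy, hval]
  rw [h5]
  exact h4

end

end Q99.SML9
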