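import Pool.Agent.Q99.SML9.Line

/-!
# Exponents modulo 4 of Jones polynomials of powers of braids
-/

set_option autoImplicit false

open Finset LaurentPolynomial Pool.Agent.H891R2.Jones Pool.Agent.W639.RB

namespace Q99.SML9

open Q99.SML Q99.SML2 Q99.SML3 Q99.SML6 Q99.SML8

/-- `A - 1` -/
noncomputable def xC : ℂ[T;T⁻¹] := T 1 - 1

/-- the value at `A = 1` -/
noncomputable def atC : ℂ[T;T⁻¹] →+* ℂ := LaurentPolynomial.eval₂ (RingHom.id ℂ) 1

theorem atC_T (n : ℤ) : atC (T n) = 1 := by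
  unfold atC
  rw [LaurentPolynomial.eval₂_T, one_zpow, Units.val_one]

theorem atC_C (z : ℂ) : atC (C z) = z := by
  unfold atC
  rw [LaurentPolynomial.eval₂_C]
  rfl

theorem xC_dvd_T (n : ℤ) : xC ∣ T n - 1 := by
  have hnat : ∀ n : ℕ, xC ∣ (T (n : ℤ) : ℂ[T;T⁻¹]) - 1 := by
    intro n
    have h1 : (T (n : ℤ) : ℂ[T;T⁻¹]) = T 1 ^ n := by
      rw [T_pow, mul_one]
    have h2 := sub_dvd_pow_sub_pow (T 1 : ℂ[T;T⁻¹]) 1 n
    rw [one_pow] at h2
    rw [h1]
    exact h2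
  rcases n with n | n
  · exact hnat n
  · have h1 : (T (Int.negSucc n) : ℂ[T;T⁻¹]) - 1 =
        -(T (Int.negSucc n)) * ((T ((n + 1 : ℕ) : ℤ) : ℂ[T;T⁻¹]) - 1) := by
      rw [mul_sub, mul_one, neg_mul, ← T_add]
      have h2 : Int.negSucc n + ((n + 1 : ℕ) : ℤ) = 0 := by
        rw [Int.negSucc_eq]
        push_cast
        ring
      rw [h2, T_zero]
      ring
    rw [h1]
    exact Dvd.dvd.mul_left (hnat _) _

theorem xC_dvd_sub (F : ℂ[T;T⁻¹]) : xC ∣ F - C (atC F) := by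
  induction F using LaurentPolynomial.induction_on' with
  | add F G hF hG =>
    have h3 : F + G - C (atC (F + G)) = (F - C (atC F)) + (G - C (atC G)) := by
      rw [map_add, map_add]
      ring
    rw [h3]
    exact dvd_add hF hG
  | C_mul_T n c =>
    rw [map_mul, atC_C, atC_T, mul_one]
    have h2 : C c * T n - (C c : ℂ[T;T⁻¹]) = C c * (T n - 1) := by ring
    rw [h2]
    exact Dvd.dvd.mul_left (xC_dvd_T n) _

theorem xC_dvd (F : ℂ[T;T⁻¹]) (h : atC F = 0) : xC ∣ F := by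
  have h1 := xC_dvd_sub F
  rw [h, map_zero, sub_zero] at h1
  exact h1

theorem xC_ne : xC ≠ 0 := by
  intro h
  have h1 := congrArg (fun F : ℂ[T;T⁻¹] => F.coeff 1) h
  have h2 : xC.coeff 1 = 1 := by
    unfold xC
    rw [AddMonoidAlgebra.coeff_sub, Finsupp.sub_apply, T_apply, if_pos rfl, ← T_zero, T_apply,
      if_neg (by norm_num), sub_zero]
  rw [h2] at h1
  exact one_ne_zero h1

/-- the unit `z A` -/
noncomputable def uC (z : ℂˣ) : (ℂ[T;T⁻¹])ˣ where
  val := C (z : ℂ) * T 1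
  inv := C ((z⁻¹ : ℂˣ) : ℂ) * T (-1)
  val_inv := by
    have h : (C (z : ℂ) * T 1) * (C ((z⁻¹ : ℂˣ) : ℂ) * T (-1)) =
        C ((z : ℂ) * ((z⁻¹ : ℂˣ) : ℂ)) * (T (1 + -1) : ℂ[T;T⁻¹]) := by
      rw [map_mul, T_add]; ring
    rw [h, Units.mul_inv, add_neg_cancel, T_zero, map_one, one_mul]
  inv_val := by
    have h : (C ((z⁻¹ : ℂˣ) : ℂ) * T (-1)) * (C (z : ℂ) * T 1) =
        C (((z⁻¹ : ℂˣ) : ℂ) * (z : ℂ)) * (T (-1 + 1) : ℂ[T;T⁻¹]) := by
      rw [map_mul, T_add]; ring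
    rw [h, Units.inv_mul, neg_add_cancel, T_zero, map_one, one_mul]

theorem uC_zpow (z : ℂˣ) (n : ℤ) :
    ((uC z ^ n : (ℂ[T;T⁻¹])ˣ) : ℂ[T;T⁻¹]) = C ((z ^ n : ℂˣ) : ℂ) * T n := by
  rcases n with n | n
  · show ((uC z ^ ((n : ℕ) : ℤ) : (ℂ[T;T⁻¹])ˣ) : ℂ[T;T⁻¹]) = C ((z ^ (n : ℤ) : ℂˣ) : ℂ) * T (n : ℤ)
    rw [zpow_natCast, Units.val_pow_eq_pow_val, zpow_natCast, Units.val_pow_eq_pow_val]
    show (C (z : ℂ) * T 1 : ℂ[T;T⁻¹]) ^ n = _
    rw [mul_pow, T_pow, map_pow, mul_one]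
  · rw [zpow_negSucc, ← inv_pow, Units.val_pow_eq_pow_val, zpow_negSucc, ← inv_pow,
      Units.val_pow_eq_pow_val]
    show (C ((z⁻¹ : ℂˣ) : ℂ) * T (-1) : ℂ[T;T⁻¹]) ^ (n + 1) = _
    rw [mul_pow, T_pow, map_pow]
    congr 2
    rw [Int.negSucc_eq]
    push_cast
    ring

theorem uC_map (z : ℂˣ) : Units.map (atC : ℂ[T;T⁻¹] →* ℂ) (uC z) = z := by
  apply Units.ext
  show atC (C (z : ℂ) * T 1) = z
  rw [map_mul, atC_C, atC_T, mul_one]

theorem dd_uC (z : ℂˣ) (hz : z ^ 4 = 1) : dd (uC z) ≠ 0 := by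
  intro h
  have h1 : atC (dd (uC z)) = 0 := by rw [h, map_zero]
  unfold dd at h1
  rw [map_sub, map_neg, uC_zpow, uC_zpow, map_mul, map_mul, atC_C, atC_C, atC_T, atC_T, mul_one,
    mul_one] at h1
  have h2 : z ^ (-2 : ℤ) = z ^ (2 : ℤ) := by
    have h3 : z ^ (2 : ℤ) * z ^ (2 : ℤ) = 1 := by
      rw [← zpow_add]
      exact_mod_cast hz
    rw [zpow_neg]
    exact inv_eq_of_mul_eq_one_left h3
  rw [h2] at h1
  have h3 : ((z ^ (2 : ℤ) : ℂˣ) : ℂ) ≠ 0 := Units.ne_zero _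
  apply h3
  linear_combination (-1 / 2 : ℂ) * h1

theorem spec_uC_coeff (z : ℂˣ) (F : ℤ[T;T⁻¹]) (n : ℤ) :
    (spec (uC z) F).coeff n = ((z ^ n : ℂˣ) : ℂ) * (F.coeff n : ℂ) := by
  induction F using LaurentPolynomial.induction_on' with
  | add F G hF hG =>
    rw [map_add, AddMonoidAlgebra.coeff_add, Finsupp.add_apply, hF, hG,
      AddMonoidAlgebra.coeff_add, Finsupp.add_apply, Int.cast_add, mul_add]
  | C_mul_T k c =>
    have h1 : (C c : ℤ[T;T⁻¹]) = (c : ℤ[T;T⁻¹]) := by simp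
    have h2 : spec (uC z) (C c * T k) =
        ((c : ℂ) * ((z ^ k : ℂˣ) : ℂ)) • (T k : ℂ[T;T⁻¹]) := by
      rw [map_mul, spec_T, uC_zpow, h1, map_intCast, smul_eq_C_mul, map_mul]
      have h4 : ((c : ℤ) : ℂ[T;T⁻¹]) = C (c : ℂ) := by simp
      rw [h4, mul_assoc]
    have h3 : (C c * T k : ℤ[T;T⁻¹]) = c • (T k : ℤ[T;T⁻¹]) := by
      rw [h1, zsmul_eq_mul]
    rw [h2, h3, AddMonoidAlgebra.coeff_smul, Finsupp.smul_apply, AddMonoidAlgebra.coeff_smul,
      Finsupp.smul_apply, T_apply, T_apply]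
    split_ifs with h5
    · rw [h5]
      simp [mul_comm]
    · simp

/-- `i` as a unit -/
noncomputable def iU : ℂˣ := Units.mk0 Complex.I Complex.I_ne_zero

theorem iU_four : iU ^ 4 = 1 := by
  apply Units.ext
  rw [Units.val_pow_eq_pow_val]
  show Complex.I ^ 4 = 1
  exact Complex.I_pow_four

theorem iU_zpow_eq (n r : ℤ) : iU ^ n = iU ^ r ↔ (4 : ℤ) ∣ n - r := by
  have h4 : iU ^ (4 : ℤ) = 1 := by exact_mod_cast iU_four
  constructor
  · intro h
    have h1 : iU ^ (n - r) = 1 := by rw [zpow_sub, h, mul_inv_cancel]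
    have h2 : iU ^ ((n - r) % 4) = 1 := by
      have h3 := Int.emod_add_mul_ediv (n - r) 4
      rw [← h3, zpow_add, zpow_mul, h4, one_zpow, mul_one] at h1
      exact h1
    have h5 := Int.emod_nonneg (n - r) (by norm_num : (4 : ℤ) ≠ 0)
    have h6 := Int.emod_lt_of_pos (n - r) (by norm_num : (0 : ℤ) < 4)
    apply Int.dvd_of_emod_eq_zero
    have h7 : ((iU ^ ((n - r) % 4) : ℂˣ) : ℂ) = 1 := by rw [h2]; rfl
    interval_cases h8 : (n - r) % 4
    · rfl
    · exfalso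
      have h9 : Complex.I = 1 := by
        have : ((iU ^ (1 : ℤ) : ℂˣ) : ℂ) = Complex.I := by rw [zpow_one]; rfl
        rw [← this]; exact h7
      have := congrArg Complex.im h9
      simp at this
    · exfalso
      have h9 : Complex.I * Complex.I = 1 := by
        have : ((iU ^ (2 : ℤ) : ℂˣ) : ℂ) = Complex.I * Complex.I := by
          rw [show (2 : ℤ) = 1 + 1 by norm_num, zpow_add, zpow_one, Units.val_mul]; rfl
        rw [← this]; exact h7
      have := congrArg Complex.re h9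
      norm_num at this
    · exfalso
      have h9 : Complex.I * Complex.I * Complex.I = 1 := by
        have : ((iU ^ (3 : ℤ) : ℂˣ) : ℂ) = Complex.I * Complex.I * Complex.I := by
          rw [show (3 : ℤ) = 1 + 1 + 1 by norm_num, zpow_add, zpow_add, zpow_one, Units.val_mul,
            Units.val_mul]; rfl
        rw [← this]; exact h7
      have := congrArg Complex.re h9
      norm_num at this
  · rintro ⟨t, ht⟩
    have h1 : n = r + 4 * t := by linear_combination ht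
    rw [h1, zpow_add, zpow_mul, h4, one_zpow, mul_one]

/-- all exponents of `F` are congruent to `r` modulo 4 -/
def ExpMod (r : ℤ) (F : ℤ[T;T⁻¹]) : Prop := ∀ n : ℤ, F.coeff n ≠ 0 → (4 : ℤ) ∣ n - r

theorem expMod_iff (r : ℤ) (F : ℤ[T;T⁻¹]) : ExpMod r F ↔
    spec (uC iU) F - C ((iU ^ r : ℂˣ) : ℂ) * spec (uC 1) F = 0 := by
  have key : ∀ n, (spec (uC iU) F - C ((iU ^ r : ℂˣ) : ℂ) * spec (uC 1) F).coeff n =
      (((iU ^ n : ℂˣ) : ℂ) - ((iU ^ r : ℂˣ) : ℂ)) * (F.coeff n : ℂ) := by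
    intro n
    rw [AddMonoidAlgebra.coeff_sub, Finsupp.sub_apply, spec_uC_coeff, ← smul_eq_C_mul,
      AddMonoidAlgebra.coeff_smul, Finsupp.smul_apply, spec_uC_coeff, one_zpow, Units.val_one,
      one_mul, smul_eq_mul]
    ring
  constructor
  · intro h
    apply LaurentPolynomial.ext
    intro n
    rw [key]
    by_cases h0 : F.coeff n = 0
    · rw [h0, Int.cast_zero, mul_zero]
      rfl
    · rw [(iU_zpow_eq n r).2 (h n h0), sub_self, zero_mul]
      rfl
  · intro h n hn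
    have h1 := key n
    rw [h] at h1
    have h2 : (0 : ℂ[T;T⁻¹]).coeff n = 0 := rfl
    rw [h2] at h1
    rcases mul_eq_zero.1 h1.symm with h3 | h3
    · rw [← iU_zpow_eq]
      apply Units.ext
      exact sub_eq_zero.1 h3
    · exact absurd (by exact_mod_cast h3) hn

/-- the zero-one law -/
theorem count_four {r k : ℕ} {m : Fin r → ℕ} (hm : ∀ i, 0 < m i) (O : ∀ i, Outer (m i))
    (w : Fin r → Fin k → Word) (u : Fin r → Fin k → VWord) (P : ℕ)
    (hP : ∀ i j, wperm (m i) (w i j) ^ P = 1) (s : Fin k → ℤ) (c : Fin r → ℤ[T;T⁻¹]) (ρ : ℤ) :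
    (∀ q : Fin k → ℤ, ExpMod ρ
        (∑ i, c i * (familyV (O i) (w i) (u i) (s + (P : ℤ) • q)).close.fPoly)) ∨
      ∀ A : Fin k → Finset ℤ, {q : Fin k → ℤ | (∀ j, q j ∈ A j) ∧ ExpMod ρ
          (∑ i, c i * (familyV (O i) (w i) (u i) (s + (P : ℤ) • q)).close.fPoly)}.ncard ≤
        (2 * (∑ i, (m i).choose (m i / 2)) - 1) * ∑ j, ∏ l ∈ univ.erase j, #(A l) := by
  classical
  set F : (Fin k → ℤ) → ℤ[T;T⁻¹] := fun q =>
    ∑ i, c i * (familyV (O i) (w i) (u i) (s + (P : ℤ) • q)).close.fPoly with hF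
  have hrec : ∀ (z : ℂˣ), z ^ 4 = 1 → ∀ (q : Fin k → ℤ) (j : Fin k),
      IRecD xC (∑ i, (m i).choose (m i / 2))
        (fun y : ℤ => spec (uC z) (F (Function.update q j y))) := by
    intro z hz q j
    have h3 := IRecD.sum (x := xC) (Finset.univ : Finset (Fin r))
      (fun i => (m i).choose (m i / 2))
      (fun i => spec (uC z) (c i) • (fun y : ℤ => spec (uC z)
        (familyV (O i) (w i) (u i) (s + (P : ℤ) • Function.update q j y)).close.fPoly))
      (fun i _ => (member_four (hm i) atC xC xC_ne xC_dvd (uC z) (by rw [uC_map]; exact hz)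
        (dd_uC z hz) (O i) (w i) (u i) P (hP i) s q j).smul _)
    have h4 : (fun y : ℤ => spec (uC z) (F (Function.update q j y))) =
        ∑ i, spec (uC z) (c i) • (fun y : ℤ => spec (uC z)
        (familyV (O i) (w i) (u i) (s + (P : ℤ) • Function.update q j y)).close.fPoly) := by
      funext y
      rw [Finset.sum_apply, hF]
      simp only [map_sum, map_mul]
      rfl
    rw [h4]
    exact h3
  have h := count_rec (x := xC) (fun q : Fin k → ℤ =>
    spec (uC iU) (F q) - C ((iU ^ ρ : ℂˣ) : ℂ) * spec (uC 1) (F q))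
    (2 * ∑ i, (m i).choose (m i / 2)) (fun q j => by
      have h1 := (hrec iU iU_four q j).add
        ((hrec 1 (one_pow 4) q j).smul (-(C ((iU ^ ρ : ℂˣ) : ℂ))))
      rw [two_mul]
      have h4 : (fun y : ℤ => spec (uC iU) (F (Function.update q j y)) -
          C ((iU ^ ρ : ℂˣ) : ℂ) * spec (uC 1) (F (Function.update q j y))) =
          (fun y : ℤ => spec (uC iU) (F (Function.update q j y))) +
          (-(C ((iU ^ ρ : ℂˣ) : ℂ))) • (fun y : ℤ => spec (uC 1) (F (Function.update q j y))) := by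
        funext y
        rw [Pi.add_apply, Pi.smul_apply, smul_eq_mul]
        ring
      rw [h4]
      exact h1) 0 prime_zero.1 prime_zero.2 ⊥ (by
      intro G y n hn hG hy
      rw [Ideal.mem_bot] at hy ⊢
      rcases mul_eq_zero.1 hy with h1 | h1
      · exfalso
        rw [h1, zero_sub, dvd_neg] at hG
        obtain ⟨H, hH⟩ := hG
        have h2 := congrArg atC hH
        rw [map_mul, map_intCast] at h2
        have h3 : atC xC = 0 := by
          unfold xC
          rw [map_sub, atC_T, map_one, sub_self]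
        rw [h3, zero_mul] at h2
        apply hn
        rw [zero_dvd_iff]
        exact_mod_cast h2
      · exact h1)
  simp only [Ideal.mem_bot, ← expMod_iff] at h
  rcases h with h | h
  · exact Or.inl h
  · right
    intro A
    exact h A (fun j z _ z' _ hz => by
      rw [zero_dvd_iff, sub_eq_zero] at hz
      exact hz)

end Q99.SML9
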